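import Pool.Agent.R594.Rai.Cond
import Pool.Agent.R594.Star.CH

/-!
# Small sets of coordinates which decide few sentences
-/

set_option autoImplicit false

namespace Pool.Agent.R594.Rai

open Set Cardinal Pool.Agent.Helper126.Sus.Forc
open Pool.Agent.R594.Star (exists_gt_K1 mk_K1)

variable {K : Type}

theorem mk_in_le [Nonempty K] {S : Set K} (hS : #S ≤ 𝔠) : #{p : SC K // In S p} ≤ 𝔠 := by
  classical
  by_cases hne : S.Nonempty
  · have : Nonempty S := hne.to_subtype
    have henum : ∀ q : {p : SC K // In S p}, ∃ e : ℕ → S, ∀ ξ n, q.1.f ξ n ≠ none →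
        ∃ i, (e i).1 = ξ := by
      intro q
      have hc : {ξ : S | ∃ n, q.1.f ξ n ≠ none}.Countable :=
        q.1.countable.preimage Subtype.val_injective
      obtain ⟨e, he⟩ := countable_iff_exists_subset_range.1 hc
      refine ⟨e, fun ξ n hn => ?_⟩
      have hξ : ξ ∈ S := by
        by_contra hcon
        exact hn (q.2 ξ hcon n)
      obtain ⟨i, hi⟩ := he (show (⟨ξ, hξ⟩ : S) ∈ {ξ : S | ∃ n, q.1.f ξ n ≠ none} from ⟨n, hn⟩)
      exact ⟨i, by rw [hi]⟩
    choose en hen using henum
    let F : {p : SC K // In S p} → (ℕ → S) × (ℕ → ℕ → Option Bool) := fun q =>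
      (en q, fun i n => q.1.f (en q i) n)
    have hF : Function.Injective F := by
      intro q q' h
      have h1 : en q = en q' := congrArg Prod.fst h
      have h2 : ∀ i n, q.1.f (en q i) n = q'.1.f (en q' i) n := fun i n =>
        congrFun (congrFun (congrArg Prod.snd h) i) n
      have h3 : q.1.f = q'.1.f := by
        funext ξ n
        by_cases h4 : ∃ i, (en q i).1 = ξ
        · obtain ⟨i, rfl⟩ := h4
          rw [h2 i n, h1]
        · have h5 : q.1.f ξ n = none := by
            by_contra hcon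
            exact h4 (hen q ξ n hcon)
          have h6 : q'.1.f ξ n = none := by
            by_contra hcon
            obtain ⟨i, hi⟩ := hen q' ξ n hcon
            exact h4 ⟨i, by rw [h1]; exact hi⟩
          rw [h5, h6]
      obtain ⟨⟨f, h1, h2⟩, h3⟩ := q
      obtain ⟨⟨f', h1', h2'⟩, h3'⟩ := q'
      simp only at h3
      subst h3
      rfl
    refine (mk_le_of_injective hF).trans ?_
    rw [mk_prod, lift_id, lift_id]
    have e1 : #(ℕ → S) ≤ 𝔠 := by
      rw [← power_def, mk_nat]
      exact (power_le_power_right hS).trans (by rw [continuum_power_aleph0])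
    have e2 : #(ℕ → ℕ → Option Bool) ≤ 𝔠 := by
      rw [← power_def, ← power_def, mk_nat, ← power_mul, aleph0_mul_aleph0]
      exact (power_le_power_right (mk_le_aleph0.trans aleph0_le_continuum)).trans
        (by rw [continuum_power_aleph0])
    exact (mul_le_mul' e1 e2).trans (by rw [continuum_mul_self])
  · rw [not_nonempty_iff_eq_empty] at hne
    have : Subsingleton {p : SC K // In S p} := by
      refine ⟨fun q q' => ?_⟩
      have h3 : q.1.f = q'.1.f := by
        funext ξ n
        rw [q.2 ξ (by rw [hne]; simp) n, q'.2 ξ (by rw [hne]; simp) n]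
      obtain ⟨⟨f, h1, h2⟩, h3⟩ := q
      obtain ⟨⟨f', h1', h2'⟩, h3'⟩ := q'
      simp only at h3
      subst h3
      rfl
    exact (Cardinal.le_one_iff_subsingleton.2 this).trans
      (one_le_aleph0.trans aleph0_le_continuum)

/-- iterating an operation on sets along `ω₁` -/
noncomputable def lev (G : Set K → Set K) (S : Set K) : K1 → Set K :=
  WellFounded.fix (wellFounded_lt (α := K1)) fun α ih => S ∪ ⋃ β, ⋃ h : β < α, G (ih β h)

theorem lev_eq (G : Set K → Set K) (S : Set K) (α : K1) :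
    lev G S α = S ∪ ⋃ β, ⋃ _ : β < α, G (lev G S β) :=
  WellFounded.fix_eq _ _ _

theorem exists_closed [Nonempty K] {ι : Type} (hι : #ι ≤ 𝔠) (D : ι → Set (SC K))
    (hD : ∀ i p, ∃ q ≤ p, q ∈ D i) {S0 : Set K} (hS0 : #S0 ≤ 𝔠) :
    ∃ S : Set K, S0 ⊆ S ∧ #S ≤ 𝔠 ∧ ∀ i p, In S p → ∃ q ≤ p, In S q ∧ q ∈ D i := by
  classical
  choose ex hex1 hex2 using hD
  let G : Set K → Set K := fun S => S ∪ ⋃ i : ι, ⋃ p : {p : SC K // In S p},
    {ξ | ∃ n, (ex i p.1).f ξ n ≠ none}
  have hG : ∀ S : Set K, #S ≤ 𝔠 → #(G S) ≤ 𝔠 := by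
    intro S hS
    refine (mk_union_le _ _).trans ((add_le_add hS ?_).trans (by rw [continuum_add_self]))
    refine (mk_iUnion_le_sum_mk).trans ((sum_le_mk_mul_iSup _).trans ?_)
    refine (mul_le_mul' hι (ciSup_le' fun i => ?_)).trans (by rw [continuum_mul_self])
    refine (mk_iUnion_le_sum_mk).trans ((sum_le_mk_mul_iSup _).trans ?_)
    refine (mul_le_mul' (mk_in_le hS) (ciSup_le' fun p => ?_)).trans (by rw [continuum_mul_self])
    exact (ex i p.1).countable.le_aleph0.trans aleph0_le_continuum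
  have hlev : ∀ α : K1, #(lev G S0 α) ≤ 𝔠 := by
    intro α
    induction α using WellFoundedLT.induction with
    | ind α ih =>
      rw [lev_eq]
      refine (mk_union_le _ _).trans ((add_le_add hS0 ?_).trans (by rw [continuum_add_self]))
      refine (mk_iUnion_le_sum_mk).trans ((sum_le_mk_mul_iSup _).trans ?_)
      refine (mul_le_mul' (mk_K1.le.trans aleph_one_le_continuum)
        (ciSup_le' fun β => ?_)).trans (by rw [continuum_mul_self])
      by_cases h : β < α
      · have e1 : (⋃ _ : β < α, G (lev G S0 β)) = G (lev G S0 β) := by simp [h]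
        rw [e1]
        exact hG _ (ih β h)
      · have e1 : (⋃ _ : β < α, G (lev G S0 β)) = ∅ := by simp [h]
        rw [e1, mk_eq_zero]
        exact zero_le
  have hGlev : ∀ {β α : K1}, β < α → G (lev G S0 β) ⊆ lev G S0 α := by
    intro β α h
    rw [lev_eq G S0 α]
    exact fun ξ hξ => Or.inr (mem_iUnion₂.2 ⟨β, h, hξ⟩)
  have hmono : ∀ {β α : K1}, β ≤ α → lev G S0 β ⊆ lev G S0 α := by
    intro β α h
    rcases h.lt_or_eq with h | rfl
    · exact subset_union_left.trans (hGlev h)
    · exact Subset.rfl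
  refine ⟨⋃ α, lev G S0 α, ?_, ?_, ?_⟩
  · obtain ⟨b, -⟩ := exists_gt_K1 (countable_empty)
    refine Subset.trans ?_ (subset_iUnion _ b)
    rw [lev_eq]
    exact subset_union_left
  · refine (mk_iUnion_le_sum_mk).trans ((sum_le_mk_mul_iSup _).trans ?_)
    exact (mul_le_mul' (mk_K1.le.trans aleph_one_le_continuum)
      (ciSup_le' fun β => hlev β)).trans (by rw [continuum_mul_self])
  · intro i p hp
    have h1 : ∀ ξ : {ξ | ∃ n, p.f ξ n ≠ none}, ∃ α, ξ.1 ∈ lev G S0 α := by
      rintro ⟨ξ, n, hn⟩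
      have h2 : ξ ∈ ⋃ α, lev G S0 α := by
        by_contra hcon
        exact hn (hp ξ hcon n)
      exact mem_iUnion.1 h2
    choose al hal using h1
    have : Countable {ξ | ∃ n, p.f ξ n ≠ none} := p.countable.to_subtype
    obtain ⟨b, hb⟩ := exists_gt_K1 (countable_range al)
    have h3 : In (lev G S0 b) p := by
      intro ξ hξ n
      by_contra hcon
      exact hξ (hmono (hb _ ⟨⟨ξ, n, hcon⟩, rfl⟩).le (hal ⟨ξ, n, hcon⟩))
    obtain ⟨c, hc⟩ := exists_gt_K1 (countable_singleton b)
    refine ⟨ex i p, hex1 i p, ?_, hex2 i p⟩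
    intro ξ hξ n
    by_contra hcon
    apply hξ
    refine mem_iUnion.2 ⟨c, hGlev (hc b rfl) (Or.inr ?_)⟩
    exact mem_iUnion₂.2 ⟨i, ⟨p, h3⟩, n, hcon⟩

end Pool.Agent.R594.Rai
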