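import Mathlib

/-!
# The countable support product of copies of Silver forcing: fusion
-/

set_option autoImplicit false

namespace Pool.Agent.R594.Rai

open Set

/-- The conditions of the countable support product of `K` copies of Silver forcing: a condition
assigns to each `ξ` in `K` a partial function from `ℕ` to `Bool` (undefined points have the value
`none`) which is undefined at infinitely many points, and all but countably many of these partial
functions are empty. -/
structure SC (K : Type) where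
  /-- the partial functions -/
  f : K → ℕ → Option Bool
  /-- countable support -/
  countable : {ξ | ∃ n, f ξ n ≠ none}.Countable
  /-- infinitely many undefined points -/
  infinite : ∀ ξ, {n | f ξ n = none}.Infinite

variable {K : Type}

/-- Stronger conditions extend the partial functions. -/
instance : Preorder (SC K) where
  le q p := ∀ ξ n b, p.f ξ n = some b → q.f ξ n = some b
  le_refl _ _ _ _ h := h
  le_trans _ _ _ h h' ξ n b hb := h ξ n b (h' ξ n b hb)

theorem le_def {q p : SC K} : q ≤ p ↔ ∀ ξ n b, p.f ξ n = some b → q.f ξ n = some b := Iff.rfl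

theorem none_of_le {q p : SC K} (h : q ≤ p) {ξ : K} {n : ℕ} (hn : q.f ξ n = none) :
    p.f ξ n = none := by
  cases hp : p.f ξ n with
  | none => rfl
  | some b => rw [h ξ n b hp] at hn; exact absurd hn (by simp)

/-- the support is included in `S` -/
def In (S : Set K) (p : SC K) : Prop := ∀ ξ ∉ S, ∀ n, p.f ξ n = none

theorem In.mono {S T : Set K} (h : S ⊆ T) {p : SC K} (hp : In S p) : In T p :=
  fun ξ hξ => hp ξ (fun h' => hξ (h h'))

theorem in_univ (p : SC K) : In univ p := fun ξ hξ => absurd (mem_univ ξ) hξ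

open Classical in
/-- fix the values at the points of the finite set `W`: `true` on `A`, `false` off `A` -/
noncomputable def fx (q : SC K) (W A : Finset (K × ℕ)) : SC K where
  f ξ n := if (ξ, n) ∈ W then some (decide ((ξ, n) ∈ A)) else q.f ξ n
  countable := by
    refine (q.countable.union (W.image Prod.fst).countable_toSet).mono ?_
    rintro ξ ⟨n, hn⟩
    by_cases h : (ξ, n) ∈ W
    · right
      rw [Finset.mem_coe, Finset.mem_image]
      exact ⟨_, h, rfl⟩
    · rw [if_neg h] at hn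
      exact Or.inl ⟨n, hn⟩
  infinite ξ := by
    refine ((q.infinite ξ).sdiff (W.image Prod.snd).finite_toSet).mono ?_
    rintro n ⟨hn, hn'⟩
    have h : (ξ, n) ∉ W := fun h => hn' (by
      rw [Finset.mem_coe, Finset.mem_image]
      exact ⟨_, h, rfl⟩)
    show (if (ξ, n) ∈ W then some (decide ((ξ, n) ∈ A)) else q.f ξ n) = none
    rw [if_neg h]
    exact hn

open Classical in
/-- forget the values at the points of the finite set `W` -/
noncomputable def fr (q : SC K) (W : Finset (K × ℕ)) : SC K where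
  f ξ n := if (ξ, n) ∈ W then none else q.f ξ n
  countable := by
    refine q.countable.mono ?_
    rintro ξ ⟨n, hn⟩
    by_cases h : (ξ, n) ∈ W
    · rw [if_pos h] at hn
      exact absurd rfl hn
    · rw [if_neg h] at hn
      exact ⟨n, hn⟩
  infinite ξ := by
    refine (q.infinite ξ).mono ?_
    intro n hn
    show (if (ξ, n) ∈ W then none else q.f ξ n) = none
    split_ifs
    · rfl
    · exact hn

theorem fx_f_of {q : SC K} {W A : Finset (K × ℕ)} {ξ : K} {n : ℕ} (h : (ξ, n) ∈ W) (hA : (ξ, n) ∈ A) :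
    (fx q W A).f ξ n = some true := by
  classical
  show (if (ξ, n) ∈ W then some (decide ((ξ, n) ∈ A)) else q.f ξ n) = some true
  rw [if_pos h, decide_eq_true hA]

theorem fx_f_of' {q : SC K} {W A : Finset (K × ℕ)} {ξ : K} {n : ℕ} (h : (ξ, n) ∈ W)
    (hA : (ξ, n) ∉ A) : (fx q W A).f ξ n = some false := by
  classical
  show (if (ξ, n) ∈ W then some (decide ((ξ, n) ∈ A)) else q.f ξ n) = some false
  rw [if_pos h, decide_eq_false hA]

theorem fx_f_of_not {q : SC K} {W A : Finset (K × ℕ)} {ξ : K} {n : ℕ} (h : (ξ, n) ∉ W) :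
    (fx q W A).f ξ n = q.f ξ n := by
  classical
  show (if (ξ, n) ∈ W then some (decide ((ξ, n) ∈ A)) else q.f ξ n) = _
  rw [if_neg h]

theorem fr_f_of {q : SC K} {W : Finset (K × ℕ)} {ξ : K} {n : ℕ} (h : (ξ, n) ∈ W) :
    (fr q W).f ξ n = none := by
  classical
  show (if (ξ, n) ∈ W then none else q.f ξ n) = none
  rw [if_pos h]

theorem fr_f_of_not {q : SC K} {W : Finset (K × ℕ)} {ξ : K} {n : ℕ} (h : (ξ, n) ∉ W) :
    (fr q W).f ξ n = q.f ξ n := by
  classical
  show (if (ξ, n) ∈ W then none else q.f ξ n) = _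
  rw [if_neg h]

theorem in_fx {S : Set K} {q : SC K} (hq : In S q) {W : Finset (K × ℕ)} (hW : ∀ w ∈ W, w.1 ∈ S)
    (A : Finset (K × ℕ)) : In S (fx q W A) := by
  intro ξ hξ n
  rw [fx_f_of_not (fun h => hξ (hW _ h))]
  exact hq ξ hξ n

theorem in_fr {S : Set K} {q : SC K} (hq : In S q) (W : Finset (K × ℕ)) : In S (fr q W) := by
  intro ξ hξ n
  by_cases h : (ξ, n) ∈ W
  · exact fr_f_of h
  · rw [fr_f_of_not h]
    exact hq ξ hξ n

/-- the finite set `W` of points is free in `q` -/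
def Free (W : Finset (K × ℕ)) (q : SC K) : Prop := ∀ w ∈ W, q.f w.1 w.2 = none

theorem fx_le {q : SC K} {W : Finset (K × ℕ)} (hW : Free W q) (A : Finset (K × ℕ)) :
    fx q W A ≤ q := by
  intro ξ n b hb
  have h : (ξ, n) ∉ W := fun h => by rw [hW _ h] at hb; exact absurd hb (by simp)
  rw [fx_f_of_not h]
  exact hb

theorem fx_mono {q q' : SC K} (h : q' ≤ q) (W A : Finset (K × ℕ)) : fx q' W A ≤ fx q W A := by
  intro ξ n b hb
  by_cases hW : (ξ, n) ∈ W
  · by_cases hA : (ξ, n) ∈ A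
    · rw [fx_f_of hW hA] at hb ⊢
      exact hb
    · rw [fx_f_of' hW hA] at hb ⊢
      exact hb
  · rw [fx_f_of_not hW] at hb ⊢
    exact h ξ n b hb

/-- the finite step of the fusion -/
theorem finite_step {S : Set K} {Y : Type} {φ : Y → Set (SC K)}
    (hdown : ∀ y, ∀ p ∈ φ y, ∀ q ≤ p, q ∈ φ y) {p : SC K}
    (hdense : ∀ q ≤ p, In S q → ∃ r ≤ q, In S r ∧ ∃ y, r ∈ φ y) {W : Finset (K × ℕ)}
    (hWS : ∀ w ∈ W, w.1 ∈ S) (𝒜 : Finset (Finset (K × ℕ))) {q : SC K} (hqp : q ≤ p) (hq : In S q)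
    (hW : Free W q) :
    ∃ q' ≤ q, In S q' ∧ Free W q' ∧ ∃ C : Finset Y, C.card ≤ 𝒜.card ∧
      ∀ A ∈ 𝒜, ∃ y ∈ C, fx q' W A ∈ φ y := by
  classical
  induction 𝒜 using Finset.induction_on with
  | empty => exact ⟨q, le_rfl, hq, hW, ∅, le_rfl, fun A hA => absurd hA (Finset.notMem_empty A)⟩
  | insert A 𝒜 hA ih =>
    obtain ⟨q1, h1, h2, h3, C, h4, h5⟩ := ih
    have h6 : fx q1 W A ≤ p := (fx_le h3 A).trans (h1.trans hqp)
    obtain ⟨r, h7, h8, y, h9⟩ := hdense _ h6 (in_fx h2 hWS A)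
    have h10 : fr r W ≤ q1 := by
      intro ξ n b hb
      have h : (ξ, n) ∉ W := fun h => by rw [h3 _ h] at hb; exact absurd hb (by simp)
      rw [fr_f_of_not h]
      apply h7
      rw [fx_f_of_not h]
      exact hb
    refine ⟨fr r W, h10.trans h1, in_fr h8 W, fun w hw => fr_f_of hw, insert y C, ?_, ?_⟩
    · rw [Finset.card_insert_of_notMem hA]
      exact (Finset.card_insert_le _ _).trans (by omega)
    · intro A' hA'
      rcases Finset.mem_insert.1 hA' with rfl | hA'
      · refine ⟨y, Finset.mem_insert_self _ _, hdown y r h9 _ ?_⟩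
        intro ξ n b hb
        by_cases hw : (ξ, n) ∈ W
        · by_cases hA2 : (ξ, n) ∈ A'
          · have h11 := h7 ξ n true (fx_f_of hw hA2)
            rw [h11] at hb
            rw [fx_f_of hw hA2]
            exact hb
          · have h11 := h7 ξ n false (fx_f_of' hw hA2)
            rw [h11] at hb
            rw [fx_f_of' hw hA2]
            exact hb
        · rw [fx_f_of_not hw, fr_f_of_not hw]
          exact hb
      · obtain ⟨y', hy', h11⟩ := h5 A' hA'
        exact ⟨y', Finset.mem_insert_of_mem hy', hdown _ _ h11 _ (fx_mono h10 W A')⟩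

theorem exists_below {Y : Type} {φ : Y → Set (SC K)}
    (hdown : ∀ y, ∀ p ∈ φ y, ∀ q ≤ p, q ∈ φ y) {W : Finset (K × ℕ)} {q : SC K} {C : Finset Y}
    (h : ∀ A ∈ W.powerset, ∃ y ∈ C, fx q W A ∈ φ y) {r : SC K} (hr : r ≤ q) :
    ∃ s ≤ r, ∃ y ∈ C, s ∈ φ y := by
  classical
  let A : Finset (K × ℕ) := W.filter fun w => r.f w.1 w.2 = some true
  obtain ⟨y, hy, h1⟩ := h A (Finset.mem_powerset.2 (Finset.filter_subset _ _))
  refine ⟨fx r W A, ?_, y, hy, hdown _ _ h1 _ (fx_mono hr W A)⟩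
  intro ξ n b hb
  by_cases hw : (ξ, n) ∈ W
  · cases b with
    | true => exact fx_f_of hw (Finset.mem_filter.2 ⟨hw, hb⟩)
    | false =>
      refine fx_f_of' hw (fun hA => ?_)
      have h2 : r.f ξ n = some true := (Finset.mem_filter.1 hA).2
      rw [hb] at h2
      exact absurd h2 (by simp)
  · rw [fx_f_of_not hw]
    exact hb

/-- one step of the fusion -/
theorem fusion_step {S : Set K} {Y : Type} {φ : Y → Set (SC K)}
    (hdown : ∀ y, ∀ p ∈ φ y, ∀ q ≤ p, q ∈ φ y) {p : SC K}
    (hdense : ∀ q ≤ p, In S q → ∃ r ≤ q, In S r ∧ ∃ y, r ∈ φ y) {W : Finset (K × ℕ)}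
    (hWS : ∀ w ∈ W, w.1 ∈ S) {q : SC K} (hqp : q ≤ p) (hq : In S q) (hW : Free W q) :
    ∃ q' ≤ q, In S q' ∧ Free W q' ∧ ∃ C : Finset Y, C.card ≤ 2 ^ W.card ∧
      ∀ r ≤ q', ∃ s ≤ r, ∃ y ∈ C, s ∈ φ y := by
  obtain ⟨q', h1, h2, h3, C, h4, h5⟩ := finite_step hdown hdense hWS W.powerset hqp hq hW
  refine ⟨q', h1, h2, h3, C, ?_, fun r hr => exists_below hdown h5 hr⟩
  rwa [Finset.card_powerset] at h4

/-- the limit of a sequence of conditions -/
theorem exists_limit {S : Set K} {q : ℕ → SC K} (hq : Antitone q) (hS : ∀ k, In S (q k))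
    (hinf : ∀ ξ, {n | ∀ k, (q k).f ξ n = none}.Infinite) : ∃ r, In S r ∧ ∀ k, r ≤ q k := by
  classical
  have key : ∀ ξ n k b, (q k).f ξ n = some b → ∀ (h : ∃ k, (q k).f ξ n ≠ none),
      (q h.choose).f ξ n = some b := by
    intro ξ n k b hb h
    have h1 := h.choose_spec
    rcases le_total h.choose k with h2 | h2
    · cases h3 : (q h.choose).f ξ n with
      | none => exact absurd h3 h1
      | some c =>
        have h4 := hq h2 ξ n c h3
        rw [hb] at h4
        exact h4.symm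
    · exact hq h2 ξ n b hb
  refine ⟨⟨fun ξ n => if h : ∃ k, (q k).f ξ n ≠ none then (q h.choose).f ξ n else none,
    ?_, ?_⟩, ?_, ?_⟩
  · refine (countable_iUnion fun k => (q k).countable).mono ?_
    rintro ξ ⟨n, hn⟩
    by_cases h : ∃ k, (q k).f ξ n ≠ none
    · obtain ⟨k, hk⟩ := h
      exact mem_iUnion.2 ⟨k, n, hk⟩
    · exact absurd (dif_neg h) hn
  · intro ξ
    refine (hinf ξ).mono ?_
    intro n hn
    show (if h : ∃ k, (q k).f ξ n ≠ none then (q h.choose).f ξ n else none) = none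
    rw [dif_neg]
    rintro ⟨k, hk⟩
    exact hk (hn k)
  · intro ξ hξ n
    show (if h : ∃ k, (q k).f ξ n ≠ none then (q h.choose).f ξ n else none) = none
    rw [dif_neg]
    rintro ⟨k, hk⟩
    exact hk (hS k ξ hξ n)
  · intro k ξ n b hb
    show (if h : ∃ k, (q k).f ξ n ≠ none then (q h.choose).f ξ n else none) = some b
    have h : ∃ k, (q k).f ξ n ≠ none := ⟨k, by rw [hb]; simp⟩
    rw [dif_pos h]
    exact key ξ n k b hb h

theorem exists_chain {α : Type*} (I : ℕ → α → Prop) (R : ℕ → α → α → Prop) {a : α} (h0 : I 0 a)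
    (step : ∀ n a, I n a → ∃ b, I (n + 1) b ∧ R n a b) :
    ∃ s : ℕ → α, s 0 = a ∧ ∀ n, I n (s n) ∧ R n (s n) (s (n + 1)) := by
  choose nx h1 h2 using step
  let s : (n : ℕ) → {a // I n a} := fun n =>
    Nat.rec ⟨a, h0⟩ (fun n s => ⟨nx n s.1 s.2, h1 n s.1 s.2⟩) n
  exact ⟨fun n => (s n).1, rfl, fun n => ⟨(s n).2, h2 n (s n).1 (s n).2⟩⟩

/-- The Sacks property of the product of copies of Silver forcing. -/
theorem fusion [Nonempty K] {S : Set K} {Y : Type} {φ : ℕ → Y → Set (SC K)}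
    (hdown : ∀ n y, ∀ p ∈ φ n y, ∀ q ≤ p, q ∈ φ n y) {p : SC K} (hp : In S p)
    (hdense : ∀ n, ∀ q ≤ p, In S q → ∃ r ≤ q, In S r ∧ ∃ y, r ∈ φ n y) :
    ∃ q ≤ p, In S q ∧ ∃ C : ℕ → Finset Y, (∀ n, (C n).card ≤ 2 ^ n) ∧
      ∀ n, ∀ r ≤ q, ∃ s ≤ r, ∃ y ∈ C n, s ∈ φ n y := by
  classical
  -- enumerations of the supports
  have henum : ∀ q : SC K, ∃ e : ℕ → K, ∀ ξ n, q.f ξ n ≠ none → ∃ i, e i = ξ := by
    intro q
    obtain ⟨e, he⟩ := countable_iff_exists_subset_range.1 q.countable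
    exact ⟨e, fun ξ n hn => he ⟨n, hn⟩⟩
  choose en hen using henum
  let I : ℕ → SC K × Finset (K × ℕ) × (ℕ → ℕ → K) → Prop := fun n s =>
    In S s.1 ∧ s.1 ≤ p ∧ Free s.2.1 s.1 ∧ (∀ w ∈ s.2.1, w.1 ∈ S) ∧ s.2.1.card ≤ n ∧
      s.2.2 n = en s.1
  let R : ℕ → SC K × Finset (K × ℕ) × (ℕ → ℕ → K) → SC K × Finset (K × ℕ) × (ℕ → ℕ → K) → Prop :=
    fun n s t => t.1 ≤ s.1 ∧ s.2.1 ⊆ t.2.1 ∧ (∀ j ≤ n, t.2.2 j = s.2.2 j) ∧
      (∃ C : Finset Y, C.card ≤ 2 ^ n ∧ ∀ r ≤ t.1, ∃ u ≤ r, ∃ y ∈ C, u ∈ φ n y) ∧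
      (s.2.2 (Nat.unpair (Nat.unpair n).1).1 (Nat.unpair (Nat.unpair n).1).2 ∈ S → ∃ m,
        (s.2.2 (Nat.unpair (Nat.unpair n).1).1 (Nat.unpair (Nat.unpair n).1).2, m) ∈ t.2.1 ∧
        (s.2.2 (Nat.unpair (Nat.unpair n).1).1 (Nat.unpair (Nat.unpair n).1).2, m) ∉ s.2.1)
  obtain ⟨s, hs0, hs⟩ := exists_chain I R (a := (p, ∅, fun _ => en p))
    ⟨hp, le_rfl, fun w hw => absurd hw (Finset.notMem_empty w),
      fun w hw => absurd hw (Finset.notMem_empty w), by simp, rfl⟩ (by
    rintro n ⟨q, W, E⟩ ⟨h1, h2, h3, h4, h5, h6⟩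
    obtain ⟨q', h7, h8, h9, C, h10, h11⟩ := fusion_step (hdown n) (hdense n) h4 h2 h1 h3
    simp only at h1 h2 h3 h4 h5 h6 h7 h8 h9 h10 h11
    generalize hξ : E (Nat.unpair (Nat.unpair n).1).1 (Nat.unpair (Nat.unpair n).1).2 = ξ
    -- a new free point
    obtain ⟨m, hm1, hm2⟩ : ∃ m, q'.f ξ m = none ∧ (ξ, m) ∉ W := by
      obtain ⟨m, hm, hm'⟩ := ((q'.infinite ξ).sdiff (W.image Prod.snd).finite_toSet).nonempty
      refine ⟨m, hm, fun h => hm' ?_⟩
      rw [Finset.mem_coe, Finset.mem_image]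
      exact ⟨_, h, rfl⟩
    refine ⟨(q', if ξ ∈ S then insert (ξ, m) W else W, Function.update E (n + 1) (en q')),
      ⟨h8, h7.trans h2, ?_, ?_, ?_, ?_⟩, h7, ?_, ?_, ⟨C, ?_, h11⟩, ?_⟩
    · intro w hw
      simp only at hw
      split_ifs at hw with hS
      · rcases Finset.mem_insert.1 hw with rfl | hw
        · exact hm1
        · exact h9 w hw
      · exact h9 w hw
    · intro w hw
      simp only at hw
      split_ifs at hw with hS
      · rcases Finset.mem_insert.1 hw with rfl | hw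
        · exact hS
        · exact h4 w hw
      · exact h4 w hw
    · simp only
      split_ifs with hS
      · exact (Finset.card_insert_le _ _).trans (by omega)
      · omega
    · simp only [Function.update_self]
    · simp only
      split_ifs with hS
      · exact Finset.subset_insert _ _
      · exact Finset.Subset.refl _
    · intro j hj
      simp only
      rw [Function.update_of_ne (by omega)]
    · exact h10.trans (Nat.pow_le_pow_right (by norm_num) h5)
    · intro hS
      simp only [hξ] at hS ⊢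
      rw [if_pos hS]
      exact ⟨m, Finset.mem_insert_self _ _, hm2⟩)
  have hanti : Antitone fun n => (s n).1 := antitone_nat_of_succ_le fun n => (hs n).2.1
  have hWmono : Monotone fun n => (s n).2.1 := monotone_nat_of_le_succ fun n => (hs n).2.2.1
  have hE : ∀ k n, k ≤ n → (s n).2.2 k = en (s k).1 := by
    intro k n hkn
    induction n, hkn using Nat.le_induction with
    | base => exact (hs k).1.2.2.2.2.2
    | succ n hkn ih => rw [(hs n).2.2.2.1 k hkn, ih]
  obtain ⟨q, hq1, hq2⟩ := exists_limit (S := S) hanti (fun k => (hs k).1.1) (by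
    intro ξ
    by_cases hξ : ∀ k n, (s k).1.f ξ n = none
    · have h1 : {n | ∀ k, (s k).1.f ξ n = none} = univ := by
        ext n
        simp only [mem_ofPred_eq, mem_univ, iff_true]
        exact fun k => hξ k n
      rw [h1]
      exact infinite_univ
    · push Not at hξ
      obtain ⟨k, n, hkn⟩ := hξ
      obtain ⟨i, hi⟩ := hen (s k).1 ξ n hkn
      have hξS : ξ ∈ S := by
        by_contra hcon
        exact hkn ((hs k).1.1 ξ hcon n)
      -- the stages for `ξ`
      have h1 : ∀ l, ∃ m, (ξ, m) ∈ (s (Nat.pair (Nat.pair k i) l + 1)).2.1 ∧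
          (ξ, m) ∉ (s (Nat.pair (Nat.pair k i) l)).2.1 := by
        intro l
        have h2 : k ≤ Nat.pair (Nat.pair k i) l :=
          (Nat.left_le_pair k i).trans (Nat.left_le_pair _ l)
        have h3 := (hs (Nat.pair (Nat.pair k i) l)).2.2.2.2.2
        simp only [Nat.unpair_pair] at h3
        rw [hE k _ h2, hi] at h3
        exact h3 hξS
      choose m hm1 hm2 using h1
      have hfree : ∀ l, m l ∈ {n | ∀ k, (s k).1.f ξ n = none} := by
        intro l k'
        have h4 := (hs (max k' (Nat.pair (Nat.pair k i) l + 1))).1.2.2.1 (ξ, m l)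
          (hWmono (le_max_right _ _) (hm1 l))
        exact none_of_le (hanti (le_max_left k' _)) h4
      refine Set.infinite_of_injective_forall_mem (f := m) ?_ hfree
      have hlt : ∀ l l', l < l' → m l ≠ m l' := by
        intro l l' hll heq
        apply hm2 l'
        rw [← heq]
        apply hWmono _ (hm1 l)
        have := Nat.pair_lt_pair_right (Nat.pair k i) hll
        omega
      intro l l' heq
      rcases lt_trichotomy l l' with h | h | h
      · exact absurd heq (hlt _ _ h)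
      · exact h
      · exact absurd heq.symm (hlt _ _ h))
  choose C hC1 hC2 using fun n => (hs n).2.2.2.2.1
  refine ⟨q, (hq2 0).trans (by rw [hs0]), hq1, C, hC1, fun n r hr => ?_⟩
  exact hC2 n r (hr.trans (hq2 (n + 1)))

end Pool.Agent.R594.Rai
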