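import Mathlib
import Pool.Agent.Helper126.Sus.Forc
import Pool.Agent.W876.Two.Gen

/-!
# The combinatorial principle, and its translation into the forcing language
-/

set_option autoImplicit false

namespace Pool.Agent.R594.Rai

open Pool.Agent.Helper126.Sus.Forc
open Pool.Agent.W876.Two.Gen (IsFun)

/-- The principle for the sets `W` and `D`, the slaloms `C w` (`w` in `W`) and the partitioning
reals `δ d` (`d` in `D`). -/
structure Principle (W D : Type) (C : W → ℕ → Finset ℕ) (δ : D → ℕ → ℕ) : Prop where
  /-- Every function from `ℕ` to `ℕ` is captured by one of the slaloms `C w`. -/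
  loc : ∀ f : ℕ → ℕ, ∃ w, ∀ n, f n ∈ C w n
  /-- For all sets `B w d m` (`w` in `W`, `d` in `D`, `m` in `ℕ`) of at most `m` finite subsets of
  `ℕ` there is a subset `x` of `ℕ` such that for every `w` there is `d` such that for infinitely
  many `m` the restriction of `x` to the interval `[δ d m, δ d (m + 1))` is different from the
  restriction of every `σ` in `B w d m`. -/
  esc : ∀ B : W → D → ℕ → Finset ℕ → Prop,
    (∀ w d m (T : Finset (Finset ℕ)), m < T.card → ∃ σ, σ ∈ T ∧ ¬ B w d m σ) →
    ∃ x : ℕ → Prop, ∀ w, ∃ d, ∀ k, ∃ m, k ≤ m ∧ ∀ σ, B w d m σ →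
      ∃ i, (δ d m ≤ i ∧ i < δ d (m + 1)) ∧ ¬ (x i ↔ i ∈ σ)

section

variable {P : Type} [Preorder P]

/-- `φ` if and only if `ψ` -/
def fiff (φ ψ : Set P) : Set P := fand (fimp φ ψ) (fimp ψ φ)

/-- The forcing version of the first part of the principle. -/
def LocN {W : Type} (C : W → ℕ → Finset ℕ) : Set P :=
  fall fun f : ℕ → ℕ → Set P => fimp (IsFun f)
    (fex fun w => fall fun n => fex fun v => fand (fground (v ∈ C w n)) (meets (f n v)))

/-- The forcing version of: the sets `B w d m` have at most `m` members. -/
def SmallN {W D : Type} (B : W → D → ℕ → Finset ℕ → Set P) : Set P :=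
  fall fun w => fall fun d => fall fun m => fall fun T : Finset (Finset ℕ) =>
    fimp (fground (m < T.card)) (fex fun σ => fand (fground (σ ∈ T)) (fnot (meets (B w d m σ))))

/-- The forcing version of: for every `w` there is `d` such that for infinitely many `m` the
restriction of `x` to the interval `[δ d m, δ d (m + 1))` is different from the restriction of
every `σ` in `B w d m`. -/
def EscapesN {W D : Type} (δ : D → ℕ → ℕ) (B : W → D → ℕ → Finset ℕ → Set P) (x : ℕ → Set P) :
    Set P :=
  fall fun w => fex fun d => fall fun k => fex fun m => fand (fground (k ≤ m))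
    (fall fun σ => fimp (meets (B w d m σ))
      (fex fun i => fand (fground (δ d m ≤ i ∧ i < δ d (m + 1)))
        (fnot (fiff (meets (x i)) (fground (i ∈ σ))))))

/-- The forcing version of the second part of the principle. -/
def EscN {W D : Type} (δ : D → ℕ → ℕ) : Set P :=
  fall fun B : W → D → ℕ → Finset ℕ → Set P => fimp (SmallN B)
    (fex fun x : ℕ → Set P => EscapesN δ B x)

end

/-- The principle in the forcing language. -/
def ForcedPrinciple (P : Type) [Preorder P] (W D : Type) (C : W → ℕ → Finset ℕ)
    (δ : D → ℕ → ℕ) : Set P :=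
  fand (LocN C) (EscN (W := W) δ)

end Pool.Agent.R594.Rai
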