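import Pool.Agent.R594.Rai.Closure
import Pool.Agent.R594.Rai.Sent

/-!
# The principle is forced by a product of copies of Silver forcing
-/

set_option autoImplicit false

namespace Pool.Agent.R594.Rai

open Set Cardinal Pool.Agent.Helper126.Sus.Forc
open Pool.Agent.W876.Two.Gen (IsFun)

/-- the slaloms of the ground model -/
abbrev Wt : Type := {C : ℕ → Finset ℕ // ∀ n, (C n).card ≤ 2 ^ n}

/-- the partitioning reals of the ground model -/
abbrev Dt : Type := {d : ℕ → ℕ // StrictMono d ∧ d 0 = 0}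

theorem mk_index_le : #(Wt × Dt × ℕ) ≤ 𝔠 := by
  have e1 : #Wt ≤ 𝔠 := by
    refine (mk_subtype_le _).trans ?_
    rw [← power_def, mk_nat]
    exact (power_le_power_right (mk_le_aleph0.trans aleph0_le_continuum)).trans
      (by rw [continuum_power_aleph0])
  have e2 : #Dt ≤ 𝔠 := by
    refine (mk_subtype_le _).trans ?_
    rw [← power_def, mk_nat]
    exact (power_le_power_right aleph0_le_continuum).trans (by rw [continuum_power_aleph0])
  simp only [mk_prod, lift_id, mk_nat]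
  exact (mul_le_mul' e1 (mul_le_mul' e2 aleph0_le_continuum)).trans (by simp [continuum_mul_self])

variable {K : Type}

theorem loc_forced [Nonempty K] (p : SC K) : p ∈ LocN (fun w : Wt => w.1) := by
  intro f
  rw [mem_fimp]
  intro q _ hf
  refine ⟨q, le_rfl, ?_⟩
  rw [mem_fex]
  intro r hr
  obtain ⟨s, hs, -, C, hC, h⟩ := fusion (S := Set.univ) (φ := fun n v => meets (f n v))
    (fun n v u hu t ht => meets_down hu ht) (p := r) (in_univ r) (by
      intro n t ht _
      obtain ⟨u, hu, v, hv⟩ := mem_fex.1 (hf.1 n) t (ht.trans hr)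
      exact ⟨u, hu, in_univ u, v, hv⟩)
  refine ⟨s, hs, ⟨C, hC⟩, fun n => ?_⟩
  rw [mem_fex]
  intro t ht
  obtain ⟨u, hu, v, hv, hv'⟩ := h n t ht
  exact ⟨u, hu, v, hv, hv'⟩

/-- the condition decides the set of the `σ` with `B σ` -/
def Dec {P : Type} [Preorder P] (B : Finset ℕ → Set P) (T : Finset (Finset ℕ)) : Set P :=
  {q | ∀ σ, (σ ∈ T → q ∈ meets (B σ)) ∧ (σ ∉ T → q ∈ fnot (meets (B σ)))}

theorem dec_down {P : Type} [Preorder P] {B : Finset ℕ → Set P} {T : Finset (Finset ℕ)} {p q : P}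
    (h : p ∈ Dec B T) (hq : q ≤ p) : q ∈ Dec B T := fun σ =>
  ⟨fun hσ => meets_down ((h σ).1 hσ) hq, fun hσ => fnot_down ((h σ).2 hσ) hq⟩

theorem exists_dec {P : Type} [Preorder P] {B : Finset ℕ → Set P} {m : ℕ} {p : P}
    (h : p ∈ fall fun T : Finset (Finset ℕ) =>
      fimp (fground (m < T.card)) (fex fun σ => fand (fground (σ ∈ T)) (fnot (meets (B σ))))) :
    ∀ q ≤ p, ∃ r ≤ q, ∃ T : Finset (Finset ℕ), T.card ≤ m ∧ r ∈ Dec B T := by
  classical
  intro q hq
  have hle : ∀ r ≤ q, ∀ T : Finset (Finset ℕ), (∀ σ ∈ T, r ∈ meets (B σ)) → T.card ≤ m := by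
    intro r hr T hT
    by_contra hcon
    obtain ⟨s, hs, h1⟩ := mem_fimp.1 (h T) r (hr.trans hq) (show m < T.card from not_le.1 hcon)
    obtain ⟨t, ht, σ, h2, h3⟩ := mem_fex.1 h1 s le_rfl
    exact h3 t le_rfl (meets_down (hT σ h2) (ht.trans hs))
  let Q : ℕ → Prop := fun j => ∃ r ≤ q, ∃ T : Finset (Finset ℕ), T.card = j ∧
    ∀ σ ∈ T, r ∈ meets (B σ)
  have hQ0 : Q 0 := ⟨q, le_rfl, ∅, rfl, fun σ hσ => absurd hσ (Finset.notMem_empty σ)⟩
  obtain ⟨r, hr, T, hT1, hT2⟩ : Q (Nat.findGreatest Q m) :=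
    Nat.findGreatest_spec (P := Q) (Nat.zero_le m) hQ0
  refine ⟨r, hr, T, hle r hr T hT2, fun σ => ⟨fun hσ => hT2 σ hσ, fun hσ s hs hcon => ?_⟩⟩
  have h1 : ∀ τ ∈ insert σ T, s ∈ meets (B τ) := by
    intro τ hτ
    rcases Finset.mem_insert.1 hτ with rfl | hτ
    · exact hcon
    · exact meets_down (hT2 τ hτ) hs
  have h2 := hle s (hs.trans hr) _ h1
  have h3 : Q (insert σ T).card := ⟨s, hs.trans hr, insert σ T, rfl, h1⟩
  have h4 := Nat.le_findGreatest h2 h3
  rw [Finset.card_insert_of_notMem hσ] at h4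
  omega

/-- a partition all of whose blocks contain many points of an infinite set -/
theorem exists_partition {U : Set ℕ} (hU : U.Infinite) : ∃ d : ℕ → ℕ, StrictMono d ∧ d 0 = 0 ∧
    ∀ m, ∃ F : Finset ℕ, 2 * m + 2 ≤ F.card ∧ ∀ i ∈ F, i ∈ U ∧ d m ≤ i ∧ i < d (m + 1) := by
  classical
  have step : ∀ m a : ℕ, ∃ b, a < b ∧ ∃ F : Finset ℕ, 2 * m + 2 ≤ F.card ∧
      ∀ i ∈ F, i ∈ U ∧ a ≤ i ∧ i < b := by
    intro m a
    have h1 : (U \ (Finset.range a : Set ℕ)).Infinite := hU.sdiff (Finset.range a).finite_toSet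
    obtain ⟨F, hF1, hF2⟩ := h1.exists_subset_card_eq (2 * m + 2)
    refine ⟨a + F.sup id + 1, by omega, F, hF2.ge, fun i hi => ?_⟩
    have h2 := hF1 (Finset.mem_coe.2 hi)
    have h3 : i ≤ F.sup id := Finset.le_sup (f := id) hi
    refine ⟨h2.1, ?_, by omega⟩
    by_contra hcon
    exact h2.2 (by simp only [Finset.coe_range, mem_Iio]; omega)
  choose b hb F hF1 hF2 using step
  let d : ℕ → ℕ := fun n => Nat.rec 0 (fun n a => b n a) n
  refine ⟨d, strictMono_nat_of_lt_succ fun n => hb n (d n), rfl, fun m => ⟨F m (d m), hF1 _ _,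
    fun i hi => hF2 _ _ i hi⟩⟩

/-- the name of the generic real with the index `ξ` -/
def X (ξ : K) (i : ℕ) : Set (SC K) := {q | q.f ξ i = some true}

theorem true_of_meets {ξ : K} {i : ℕ} {q : SC K} (h : q ∈ meets (X ξ i)) (b : Bool)
    (hb : q.f ξ i = some b) : b = true := by
  obtain ⟨r, hr, s, hs, hrs⟩ := h q le_rfl
  have h1 := hrs ξ i true hs
  have h2 := hr ξ i b hb
  rw [h1] at h2
  exact (Option.some.inj h2).symm

open Classical in
/-- the restriction of a condition to a set of coordinates -/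
noncomputable def res (p : SC K) (S : Set K) : SC K where
  f ξ n := if ξ ∈ S then p.f ξ n else none
  countable := by
    refine p.countable.mono ?_
    rintro ξ ⟨n, hn⟩
    by_cases h : ξ ∈ S
    · rw [if_pos h] at hn
      exact ⟨n, hn⟩
    · rw [if_neg h] at hn
      exact absurd rfl hn
  infinite ξ := by
    refine (p.infinite ξ).mono ?_
    intro n hn
    show (if ξ ∈ S then p.f ξ n else none) = none
    split_ifs
    · exact hn
    · rfl

theorem res_f_of {p : SC K} {S : Set K} {ξ : K} (h : ξ ∈ S) (n : ℕ) :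
    (res p S).f ξ n = p.f ξ n := by
  classical
  show (if ξ ∈ S then p.f ξ n else none) = _
  rw [if_pos h]

theorem in_res (p : SC K) (S : Set K) : In S (res p S) := by
  classical
  intro ξ hξ n
  show (if ξ ∈ S then p.f ξ n else none) = _
  rw [if_neg hξ]

theorem res_le {p p0 : SC K} {S : Set K} (hp0 : In S p0) (h : p ≤ p0) : res p S ≤ p0 := by
  intro ξ n b hb
  have hξ : ξ ∈ S := by
    by_contra hcon
    rw [hp0 ξ hcon n] at hb
    exact absurd hb (by simp)
  rw [res_f_of hξ]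
  exact h ξ n b hb

open Classical in
/-- the partial function which extends `g` to the even blocks -/
noncomputable def ext (g : ℕ → Option Bool) (d : ℕ → ℕ) (A : ℕ → Finset ℕ) (i : ℕ) : Option Bool :=
  if g i = none ∧ ∃ m, Even m ∧ d m ≤ i ∧ i < d (m + 1) then
    some (decide (∃ m, (d m ≤ i ∧ i < d (m + 1)) ∧ i ∈ A m)) else g i

theorem block_unique {d : ℕ → ℕ} (hd : StrictMono d) {m m' i : ℕ} (h : d m ≤ i ∧ i < d (m + 1))
    (h' : d m' ≤ i ∧ i < d (m' + 1)) : m = m' := by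
  rcases lt_trichotomy m m' with h1 | h1 | h1
  · have := hd.monotone (show m + 1 ≤ m' from h1)
    omega
  · exact h1
  · have := hd.monotone (show m' + 1 ≤ m from h1)
    omega

theorem ext_true {g : ℕ → Option Bool} {d : ℕ → ℕ} {A : ℕ → Finset ℕ} {m i : ℕ} (hm : Even m)
    (hi : d m ≤ i ∧ i < d (m + 1)) (hg : g i = none) (hA : i ∈ A m) :
    ext g d A i = some true := by
  classical
  show (if g i = none ∧ ∃ m, Even m ∧ d m ≤ i ∧ i < d (m + 1) then
    some (decide (∃ m, (d m ≤ i ∧ i < d (m + 1)) ∧ i ∈ A m)) else g i) = some true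
  rw [if_pos ⟨hg, m, hm, hi⟩, decide_eq_true]
  exact ⟨m, hi, hA⟩

theorem ext_false {g : ℕ → Option Bool} {d : ℕ → ℕ} (hd : StrictMono d) {A : ℕ → Finset ℕ}
    {m i : ℕ} (hm : Even m) (hi : d m ≤ i ∧ i < d (m + 1)) (hg : g i = none) (hA : i ∉ A m) :
    ext g d A i = some false := by
  classical
  show (if g i = none ∧ ∃ m, Even m ∧ d m ≤ i ∧ i < d (m + 1) then
    some (decide (∃ m, (d m ≤ i ∧ i < d (m + 1)) ∧ i ∈ A m)) else g i) = some false
  rw [if_pos ⟨hg, m, hm, hi⟩, decide_eq_false]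
  rintro ⟨m', hm', h⟩
  rw [block_unique hd hi hm'] at hA
  exact hA h

theorem ext_none {g : ℕ → Option Bool} {d : ℕ → ℕ} (hd : StrictMono d) {A : ℕ → Finset ℕ}
    {m i : ℕ} (hm : ¬ Even m) (hi : d m ≤ i ∧ i < d (m + 1)) (hg : g i = none) :
    ext g d A i = none := by
  classical
  show (if g i = none ∧ ∃ m, Even m ∧ d m ≤ i ∧ i < d (m + 1) then
    some (decide (∃ m, (d m ≤ i ∧ i < d (m + 1)) ∧ i ∈ A m)) else g i) = none
  rw [if_neg, hg]
  rintro ⟨_, m', h1, h2⟩
  rw [block_unique hd hi h2] at hm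
  exact hm h1

theorem ext_some {g : ℕ → Option Bool} {d : ℕ → ℕ} {A : ℕ → Finset ℕ} {i : ℕ} {b : Bool}
    (h : g i = some b) : ext g d A i = some b := by
  classical
  show (if g i = none ∧ ∃ m, Even m ∧ d m ≤ i ∧ i < d (m + 1) then
    some (decide (∃ m, (d m ≤ i ∧ i < d (m + 1)) ∧ i ∈ A m)) else g i) = some b
  rw [if_neg, h]
  rintro ⟨h1, _⟩
  rw [h] at h1
  exact absurd h1 (by simp)

theorem esc_forced (hK : 𝔠 < #K) (p : SC K) :
    p ∈ EscN (W := Wt) (fun d : Dt => d.1) := by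
  classical
  have hne : Nonempty K := by
    rw [← mk_ne_zero_iff]
    exact (bot_lt_of_lt hK).ne'
  intro B
  rw [mem_fimp]
  intro p0 _ hB
  refine ⟨p0, le_rfl, ?_⟩
  -- few coordinates decide the names
  obtain ⟨S, hS0, hS, hcl⟩ := exists_closed (ι := Wt × Dt × ℕ) mk_index_le
    (fun i => {q | (∃ T : Finset (Finset ℕ), T.card ≤ i.2.2 ∧ q ∈ Dec (B i.1 i.2.1 i.2.2) T) ∨
      ¬ ∃ s, s ≤ q ∧ s ≤ p0}) (by
      rintro ⟨w, d, m⟩ q
      by_cases hq : ∃ s, s ≤ q ∧ s ≤ p0
      · obtain ⟨s, hs1, hs2⟩ := hq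
        obtain ⟨r, hr, T, hT1, hT2⟩ := exists_dec (hB w d m) s hs2
        exact ⟨r, hr.trans hs1, Or.inl ⟨T, hT1, hT2⟩⟩
      · exact ⟨q, le_rfl, Or.inr hq⟩) (S0 := {ξ | ∃ n, p0.f ξ n ≠ none})
    (p0.countable.le_aleph0.trans aleph0_le_continuum)
  have hp0S : In S p0 := by
    intro ξ hξ n
    by_contra hcon
    exact hξ (hS0 ⟨n, hcon⟩)
  obtain ⟨ξ, hξ⟩ : ∃ ξ, ξ ∉ S := by
    by_contra hcon
    push Not at hcon
    have h1 : S = Set.univ := eq_univ_of_forall hcon
    rw [h1, mk_univ] at hS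
    exact absurd hS (not_le.2 hK)
  rw [mem_fex]
  intro p0' hp0'
  refine ⟨p0', le_rfl, X ξ, fun w => ?_⟩
  rw [mem_fex]
  intro p1 hp1'
  have hp1 : p1 ≤ p0 := hp1'.trans hp0'
  -- the partition
  obtain ⟨d, hd1, hd2, hd3⟩ := exists_partition (p1.infinite ξ)
  choose F hF1 hF2 using hd3
  -- the Sacks property
  obtain ⟨q, hq1, hqS, C, hC1, hC2⟩ := fusion (S := S) (Y := Finset (Finset ℕ))
    (φ := fun m T => {q | T.card ≤ m ∧ q ∈ Dec (B w ⟨d, hd1, hd2⟩ m) T})
    (fun m T u hu t ht => ⟨hu.1, dec_down hu.2 ht⟩) (p := res p1 S) (in_res p1 S) (by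
      intro m r hr hrS
      obtain ⟨s, hs1, hs2, hs3⟩ := hcl (w, ⟨d, hd1, hd2⟩, m) r hrS
      refine ⟨s, hs1, hs2, ?_⟩
      rcases hs3 with h | h
      · exact h
      · exact absurd ⟨s, le_rfl, hs1.trans (hr.trans (res_le hp0S hp1))⟩ h)
  -- the values which have to be avoided
  have hA : ∀ m, ∃ A : Finset ℕ, A ⊆ F m ∧ ∀ T ∈ C m, T.card ≤ m → ∀ σ ∈ T,
      ∃ i ∈ F m, ¬ (i ∈ A ↔ i ∈ σ) := by
    intro m
    let E : Finset (Finset ℕ) := ((C m).filter fun T => T.card ≤ m).biUnion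
      fun T => T.image fun σ => σ ∩ F m
    have hE : E.card < (F m).powerset.card := by
      have h1 : E.card ≤ 2 ^ m * m := by
        refine Finset.card_biUnion_le.trans ?_
        refine (Finset.sum_le_card_nsmul _ _ m ?_).trans ?_
        · intro T hT
          exact Finset.card_image_le.trans (Finset.mem_filter.1 hT).2
        · rw [smul_eq_mul]
          exact Nat.mul_le_mul_right _ ((Finset.card_filter_le _ _).trans (hC1 m))
      have h2 : 2 ^ m * m < 2 ^ (2 * m + 2) := by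
        have h3 : m < 2 ^ m := Nat.lt_two_pow_self
        calc 2 ^ m * m < 2 ^ m * 2 ^ m := Nat.mul_lt_mul_of_pos_left h3 (by positivity)
          _ ≤ 2 ^ (2 * m + 2) := by
            rw [← pow_add]
            exact Nat.pow_le_pow_right (by norm_num) (by omega)
      rw [Finset.card_powerset]
      exact h1.trans_lt (h2.trans_le (Nat.pow_le_pow_right (by norm_num) (hF1 m)))
    obtain ⟨A, hA1, hA2⟩ := Finset.exists_mem_notMem_of_card_lt_card hE
    have hAF := Finset.mem_powerset.1 hA1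
    refine ⟨A, hAF, fun T hT hTm σ hσ => ?_⟩
    by_contra hcon
    push Not at hcon
    apply hA2
    refine Finset.mem_biUnion.2 ⟨T, Finset.mem_filter.2 ⟨hT, hTm⟩, Finset.mem_image.2 ⟨σ, hσ, ?_⟩⟩
    ext i
    rw [Finset.mem_inter]
    constructor
    · rintro ⟨h1, h2⟩
      exact (hcon i h2).2 h1
    · intro h1
      exact ⟨(hcon i (hAF h1)).1 h1, hAF h1⟩
  choose A hA1 hA2 using hA
  -- the condition
  let p2 : SC K :=
    { f := fun η => if η = ξ then ext (p1.f ξ) d A else if η ∈ S then q.f η else p1.f η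
      countable := by
        refine ((q.countable.union p1.countable).union (countable_singleton ξ)).mono ?_
        rintro η ⟨n, hn⟩
        by_cases h1 : η = ξ
        · exact Or.inr h1
        · left
          rw [if_neg h1] at hn
          by_cases h2 : η ∈ S
          · rw [if_pos h2] at hn
            exact Or.inl ⟨n, hn⟩
          · rw [if_neg h2] at hn
            exact Or.inr ⟨n, hn⟩
      infinite := by
        intro η
        by_cases h1 : η = ξ
        · simp only [if_pos h1]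
          refine infinite_of_forall_exists_gt fun a => ?_
          have h2 : (F (2 * (a + 1) + 1)).Nonempty := by
            rw [← Finset.card_pos]
            have := hF1 (2 * (a + 1) + 1)
            omega
          obtain ⟨i, hi⟩ := h2
          have h3 := hF2 _ i hi
          refine ⟨i, ext_none hd1 (by simp) h3.2 h3.1, ?_⟩
          have h4 : 2 * (a + 1) + 1 ≤ d (2 * (a + 1) + 1) := hd1.le_apply
          omega
        · simp only [if_neg h1]
          by_cases h2 : η ∈ S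
          · simp only [if_pos h2]
            exact q.infinite η
          · simp only [if_neg h2]
            exact p1.infinite η }
  have hp2ξ : p2.f ξ = ext (p1.f ξ) d A := if_pos rfl
  have hp2q : p2 ≤ q := by
    intro η n b hb
    have h2 : η ∈ S := by
      by_contra hcon
      rw [hqS η hcon n] at hb
      exact absurd hb (by simp)
    have h1 : η ≠ ξ := fun h => hξ (h ▸ h2)
    show (if η = ξ then ext (p1.f ξ) d A else if η ∈ S then q.f η else p1.f η) n = some b
    rw [if_neg h1, if_pos h2]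
    exact hb
  have hp2p1 : p2 ≤ p1 := by
    intro η n b hb
    show (if η = ξ then ext (p1.f ξ) d A else if η ∈ S then q.f η else p1.f η) n = some b
    by_cases h1 : η = ξ
    · rw [if_pos h1]
      subst h1
      exact ext_some hb
    · rw [if_neg h1]
      by_cases h2 : η ∈ S
      · rw [if_pos h2]
        apply hq1
        rw [res_f_of h2]
        exact hb
      · rw [if_neg h2]
        exact hb
  refine ⟨p2, hp2p1, ⟨d, hd1, hd2⟩, fun k => ?_⟩
  rw [mem_fex]
  intro r hr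
  refine ⟨r, le_rfl, 2 * k, show k ≤ 2 * k by omega, fun σ => ?_⟩
  rw [mem_fimp]
  intro s hs hσ
  obtain ⟨t, ht, T, hT, hTm, htT⟩ := hC2 (2 * k) s (hs.trans (hr.trans hp2q))
  have htp2 : t ≤ p2 := ht.trans (hs.trans hr)
  have hσT : σ ∈ T := by
    by_contra hcon
    exact (htT σ).2 hcon t le_rfl (meets_down hσ ht)
  obtain ⟨i, hi, hne⟩ := hA2 (2 * k) T hT hTm σ hσT
  have hib := hF2 _ i hi
  refine ⟨t, ht, ?_⟩
  rw [mem_fex]
  intro t' ht'
  refine ⟨t', le_rfl, i, hib.2, ?_⟩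
  intro u hu hiff
  have hup2 : u ≤ p2 := hu.trans (ht'.trans htp2)
  by_cases hiA : i ∈ A (2 * k)
  · have h1 : u.f ξ i = some true := by
      apply hup2
      rw [hp2ξ]
      exact ext_true (by simp) hib.2 hib.1 hiA
    obtain ⟨v, _, h2⟩ := mem_fimp.1 hiff.1 u le_rfl (meets_of_mem h1)
    exact hne ⟨fun _ => h2, fun _ => hiA⟩
  · by_cases hiσ : i ∈ σ
    · obtain ⟨v, hv, h2⟩ := mem_fimp.1 hiff.2 u le_rfl (show i ∈ σ from hiσ)
      have h1 : v.f ξ i = some false := by
        apply hv.trans hup2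
        rw [hp2ξ]
        exact ext_false hd1 (by simp) hib.2 hib.1 hiA
      exact absurd (true_of_meets h2 false h1) (by simp)
    · exact hne ⟨fun h => absurd h hiA, fun h => absurd h hiσ⟩

theorem exists_forcing : ∃ (P : Type) (_ : Preorder P) (W D : Type) (C : W → ℕ → Finset ℕ)
    (δ : D → ℕ → ℕ), Nonempty P ∧ (∀ w n, (C w n).card ≤ 2 ^ n) ∧
      (∀ d, StrictMono (δ d) ∧ δ d 0 = 0) ∧ ∀ p : P, p ∈ ForcedPrinciple P W D C δ := by
  have hK : 𝔠 < #(Set (Set ℕ)) := by
    rw [mk_set, mk_set, mk_nat, two_power_aleph0]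
    exact cantor 𝔠
  refine ⟨SC (Set (Set ℕ)), inferInstance, Wt, Dt, fun w => w.1, fun d => d.1,
    ⟨⟨fun _ _ => none, ?_, ?_⟩⟩, fun w => w.2, fun d => d.2, fun p => ⟨loc_forced p,
      esc_forced hK p⟩⟩
  · have h1 : {ξ : Set (Set ℕ) | ∃ n : ℕ, (none : Option Bool) ≠ none} = ∅ := by
      ext ξ; simp
    rw [h1]
    exact countable_empty
  · intro ξ
    have h1 : {n : ℕ | (none : Option Bool) = none} = Set.univ := by
      ext n; simp
    rw [h1]
    exact infinite_univ

end Pool.Agent.R594.Rai
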