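import Pool.Agent.H20R3.Yor.NullCode
import Pool.Agent.R594.Rai.Sent

/-!
# The Raisonnier ideal; the consequences of the principle
-/

set_option autoImplicit false

namespace Pool.Agent.R594.Rai

open Set Cardinal Filter Pool.Agent.H20R3.Yor

/-- The interval `[d m, d (m + 1))`. -/
abbrev Block (d : ℕ → ℕ) (m : ℕ) : Type := Set.Ico (d m) (d (m + 1))

/-- The set `X` goes through `B`: for every `x` in `X`, the restriction of `x` to the interval
`[d m, d (m + 1))` belongs to `B m` for all but finitely many `m`. -/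
def GoesThrough (X : Set Cantor) (d : ℕ → ℕ) (B : ∀ m, Finset (Block d m → Bool)) : Prop :=
  ∀ x ∈ X, ∀ᶠ m in atTop, (fun i : Block d m => x i) ∈ B m

/-- The Raisonnier ideal: the subsets `X` of the Cantor space such that for every partitioning real
`d` (a strictly increasing function with `d 0 = 0`) the set `X` goes through some `d`-binary slalom
`B` (a sequence of sets `B m` of at most `m` functions from `[d m, d (m + 1))` to `{0, 1}`). -/
def raisonnier : Set (Set Cantor) :=
  {X | ∀ d : ℕ → ℕ, StrictMono d → d 0 = 0 →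
    ∃ B : ∀ m, Finset (Block d m → Bool), (∀ m, (B m).card ≤ m) ∧ GoesThrough X d B}

/-- `cov(I)`: the least size of a subfamily of `I` whose union is the whole space. -/
noncomputable def covNum (I : Set (Set Cantor)) : Cardinal.{0} :=
  sInf {κ | ∃ F : Set (Set Cantor), F ⊆ I ∧ ⋃₀ F = Set.univ ∧ #F = κ}

theorem singleton_mem (x : Cantor) : {x} ∈ raisonnier := by
  classical
  intro d _ _
  refine ⟨fun m => if m = 0 then ∅ else {fun i : Block d m => x i}, fun m => ?_, ?_⟩
  · beta_reduce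
    by_cases hm : m = 0
    · simp [hm]
    · rw [if_neg hm, Finset.card_singleton]
      omega
  · rintro y hy
    rw [mem_singleton_iff] at hy
    subst hy
    filter_upwards [eventually_gt_atTop 0] with m hm
    beta_reduce
    rw [if_neg (by omega)]
    exact Finset.mem_singleton_self _

theorem cof_le {W D : Type} {C : W → ℕ → Finset ℕ} {δ : D → ℕ → ℕ}
    (hC : ∀ w n, (C w n).card ≤ 2 ^ n) (h : Principle W D C δ) : cofNum nullIdeal ≤ #W := by
  have h1 : cofNum nullIdeal ≤ #(range fun w => nullOf (C w)) := by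
    refine csInf_le' ⟨_, ?_, ?_, rfl⟩
    · rintro _ ⟨w, rfl⟩
      exact nullOf_null fun n => (hC w n).trans
        (Nat.pow_le_pow_right (by norm_num) (by nlinarith [Nat.zero_le n]))
    · intro A hA
      obtain ⟨x, hx⟩ := exists_code hA
      obtain ⟨w, hw⟩ := h.loc x
      exact ⟨_, ⟨w, rfl⟩, hx _ ⟨0, fun n _ => hw n⟩⟩
  exact h1.trans mk_range_le

theorem nonempty_of_principle {W D : Type} {C : W → ℕ → Finset ℕ} {δ : D → ℕ → ℕ}
    (h : Principle W D C δ) : Nonempty W :=
  ⟨(h.loc fun _ => 0).choose⟩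

/-- no family of sets of the ideal indexed by `W` covers the space -/
theorem not_cover {W D : Type} {C : W → ℕ → Finset ℕ} {δ : D → ℕ → ℕ}
    (hδ : ∀ d, StrictMono (δ d) ∧ δ d 0 = 0) (h : Principle W D C δ) (X : W → Set Cantor)
    (hX : ∀ w, X w ∈ raisonnier) : ∃ x, ∀ w, x ∉ X w := by
  classical
  choose B hB1 hB2 using fun (w : W) (d : D) => hX w (δ d) (hδ d).1 (hδ d).2
  -- the set coded by a function on an interval
  let co : ∀ (d : D) (m : ℕ), (Block (δ d) m → Bool) → Finset ℕ := fun d m s =>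
    (Finset.Ico (δ d m) (δ d (m + 1))).filter fun i => ∃ h : i ∈ Set.Ico (δ d m) (δ d (m + 1)),
      s ⟨i, h⟩ = true
  obtain ⟨x, hx⟩ := h.esc (fun w d m σ => σ ∈ (B w d m).image (co d m)) (by
    intro w d m T hT
    by_contra hcon
    push Not at hcon
    have h1 : T.card ≤ m := (Finset.card_le_card hcon).trans
      (Finset.card_image_le.trans (hB1 w d m))
    omega)
  refine ⟨fun i => decide (x i), fun w hw => ?_⟩
  obtain ⟨d, hd⟩ := hx w
  obtain ⟨N, hN⟩ := eventually_atTop.1 (hB2 w d _ hw)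
  obtain ⟨m, hm, h1⟩ := hd N
  obtain ⟨i, hi, h2⟩ := h1 _ (Finset.mem_image_of_mem (co d m) (hN m hm))
  apply h2
  rw [Finset.mem_filter]
  constructor
  · intro h3
    exact ⟨Finset.mem_Ico.2 hi, hi, decide_eq_true h3⟩
  · rintro ⟨_, _, h3⟩
    exact of_decide_eq_true h3

theorem lt_cov {W D : Type} {C : W → ℕ → Finset ℕ} {δ : D → ℕ → ℕ}
    (hδ : ∀ d, StrictMono (δ d) ∧ δ d 0 = 0) (h : Principle W D C δ) :
    #W < covNum raisonnier := by
  have hne : {κ | ∃ F : Set (Set Cantor), F ⊆ raisonnier ∧ ⋃₀ F = Set.univ ∧ #F = κ}.Nonempty := by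
    refine ⟨_, range fun x : Cantor => {x}, ?_, ?_, rfl⟩
    · rintro _ ⟨x, rfl⟩
      exact singleton_mem x
    · exact eq_univ_of_forall fun x => ⟨{x}, ⟨x, rfl⟩, rfl⟩
  obtain ⟨F, hF1, hF2, hF3⟩ := csInf_mem hne
  show #W < sInf _
  rw [← hF3]
  by_contra hcon
  rw [not_lt] at hcon
  obtain ⟨g⟩ := (Cardinal.le_def _ _).1 hcon
  have hFne : Nonempty F := by
    have h1 : (fun _ => false : Cantor) ∈ ⋃₀ F := by rw [hF2]; trivial
    obtain ⟨A, hA, -⟩ := h1
    exact ⟨⟨A, hA⟩⟩
  obtain ⟨x, hx⟩ := not_cover hδ h (fun w => (Function.invFun g w : F).1)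
    (fun w => hF1 (Function.invFun g w : F).2)
  have h1 : x ∈ ⋃₀ F := by rw [hF2]; trivial
  obtain ⟨A, hA, hxA⟩ := h1
  obtain ⟨w, hw⟩ := Function.invFun_surjective g.injective ⟨A, hA⟩
  apply hx w
  rw [hw]
  exact hxA

end Pool.Agent.R594.Rai
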